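import Pool.Agent.H79.GM.Res

/-! # MP_537ea0_ag : zero-cycles on powers of varieties dominated by elliptic surfaces (all K3 surfaces, all elliptic surfaces over the projective line)

`W : y^2 = x^3 - 3 a x - 2 b` is a Weierstrass model over a smooth projective curve `B ⊂ ℙ(v)` of genus `g`, `deg O(1) = d`, with its zero section contracted, `X` a closed subset of a weighted projective space, `Γ` a closed
subset of `W × X` which maps onto `W` and onto `X` such that the points of `X` over one point of `W` are rationally equivalent up to torsion (`Dom`).  For `k ≥ n d + g` the alternating exterior products of `k` zero-cycles of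
degree zero on `X` are torsion in the Chow group of zero-cycles of `X^k`, over every algebraically closed extension field. -/

namespace Pool.Agent.Results.MP_537ea0_ag.DominatedByElliptic

open ES RR H79.GM H77.PB

/-- Let `K0` be an algebraically closed field of characteristic zero, `W` a Weierstrass model `y^2 = x^3 - 3 a x - 2 b` of weight `n > 0` over a smooth projective curve `B = {I = 0}` in `ℙ(v)` of genus `g` with `deg O(1) = d`
(`SmC`), such that `a^3` and `b^2` are linearly independent modulo `(I)` (the `j`-invariant is not constant), let `X` be a closed subset of a weighted projective space over `K0` which is dominated by `W` through the closed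
subset `Γ` of `W × X` (`Dom`), and let `k ≥ n d + g`.  For all algebraically closed fields `K ⊇ K0` and all zero-cycles `z_1, .., z_k` of degree zero on `X` over `K` the cycle `∑_σ sgn(σ) z_σ(1) × .. × z_σ(k)` has a positive
multiple which is rationally equivalent to zero on `X^k`. -/
theorem result (K0 : Type) [Field K0] [IsAlgClosed K0] [CharZero K0] (s d g k m : ℕ) (W : Wm K0 s) (hW : W.Ok) (hB : SmC W.v W.I d g)
    (hab : ∀ c e : K0, MvPolynomial.C c * W.a ^ 3 - MvPolynomial.C e * W.b ^ 2 ∈ Ideal.span W.I → c = 0 ∧ e = 0)
    (hk : W.n * d + g ≤ k) (X : Var K0 m) (hX : X.Ok) (Γ : Set (MvPolynomial ((Fin s ⊕ Fin 2) ⊕ Fin m) K0)) (hΓ : Dom W X Γ)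
    (K : Type) [Field K] [IsAlgClosed K] [Algebra K0 K] (z : Fin k → ((Fin m → K) →₀ ℤ))
    (hz : ∀ i, ∀ u ∈ (z i).support, OnV X u) (h0 : ∀ i, ((z i).sum fun _ c => c) = 0) :
    ∃ N : ℕ, 0 < N ∧ N • altX z ∈ RatV X K k :=
  gm_exp hW hB hab hX hΓ hk K z h0 hz

end Pool.Agent.Results.MP_537ea0_ag.DominatedByElliptic
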