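import Pool.Agent.H8.AJ.Ell

/-!
# MP_537ea0_ag : cycles of codimension two on the square of an elliptic K3 surface
-/

open CategoryTheory CategoryTheory.Limits

universe u v w

namespace Pool.Agent.Results.MP_537ea0_ag.EllipticK3CodimTwo

open Pool.Agent.H2.OC Pool.Agent.H20.K3 Pool.Agent.H8.AJ H67.KH

/-- Let `V` be the category of smooth projective varieties over an algebraically closed subfield `k` of the
complex numbers (for example the algebraic numbers), `A` the Chow rings with rational coefficients, `J` the
Abel-Jacobi maps. (1) Let `S` be an elliptic K3 surface and `Z` any variety. Every numerically trivial class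
`z` of codimension `2` on `S × S × Z` is symmetric with respect to the exchange of the two factors `S`, up to
classes from `S × Z`: there is a numerically trivial class `u` on `S × Z`, homologically trivial if `z` is,
and in the kernel of the Abel-Jacobi map if `z` is, such that `z - σ^* z = p_1^* u - p_2^* u`. (2) Let `W` be an
elliptic K3 surface in Weierstrass form and `X` the target of a dominant rational map from `W × W` which is
invariant under `(P, Q) ↦ (Q, -P)`. If the Abel-Jacobi map in codimension `2` is injective for `Z`, then it is
injective for `X × Z`; in particular it is injective for `X`. -/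
theorem result (k : Type) [Field k] [IsAlgClosed k] [CharZero k] {V : Type u} [Category.{v} V]
    [HasFiniteProducts V] (A : Rings.{u, v, w} V) [Chow A] [Chow2 A] (G : Grading A)
    (J : AbelJacobi A) (hF : Facts G J.toJacobians) :
    (∀ S : V, Nonempty (Elliptic k G S) → ∀ (Z : V) (z : A.R (dp (dp S S) Z)),
      Cod G 2 z → NumTrivial A z →
      ∃ u : A.R (dp S Z), Cod G 2 u ∧ NumTrivial A u ∧
        (Hom J.toJacobians z → Hom J.toJacobians u) ∧
        (Ker J.toJacobians z → Ker J.toJacobians u) ∧
        z - pl A (mp (sw S) (𝟙 Z)) z =
          pl A (mp (p1 S S) (𝟙 Z)) u - pl A (mp (p2 S S) (𝟙 Z)) u) ∧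
    (∀ X : V, Nonempty (Quotient k G X) →
      (∀ Z : V, Injective G J.toJacobians 2 Z → Injective G J.toJacobians 2 (dp X Z)) ∧
        Injective G J.toJacobians 2 X) := by
  refine ⟨?_, ?_⟩
  · rintro S ⟨E⟩ Z a ha hn
    exact symmetric hF E.supported E.dim_S E.regular ha hn
  · rintro X ⟨E⟩
    exact ⟨fun Z hZ => injective_prod hF E.pointLike hZ, injective_self hF E.pointLike⟩

end Pool.Agent.Results.MP_537ea0_ag.EllipticK3CodimTwo
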