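import Pool.Agent.H79.SCH.Res

/-! # MP_537ea0_ag : zero-cycles on powers of fibre products of elliptic surfaces

`B` a smooth projective curve in the weighted projective space `ℙ(v)`, `W_j : y^2 = x^3 - 3 a_j x - 2 b_j` over `B` for `j = 1, .., c`, `a_j`, `b_j` forms of degrees `4 n_j`, `6 n_j` on `B` with nonconstant
`j`-invariant, and `X = W_1 ×_B ... ×_B W_c` the fibre product over `B` of the Weierstrass fibrations (`c = 1`: an elliptic surface with section; `c = 2`, `B = ℙ¹`, `n_1 = n_2 = 1`: Schoen's Calabi-Yau threefolds).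
Voisin's conjecture on zero-cycles for `X`: `k ≥ d (n_1 + .. + n_c) + g` zero-cycles have a torsion alternating (`c` odd) or symmetric (`c` even) exterior product; `d` is the degree of `O(1)` and `g` the genus of `B`;
`d (n_1 + .. + n_c) + g - 1` is the dimension of the space of global sections of the dualizing sheaf of `X`. -/

namespace Pool.Agent.Results.MP_537ea0_ag.FibreProducts

open ES RR FX SCX

/-- Let `K` be an algebraically closed field of characteristic zero.
(1) Let `B = {I = 0}` be a smooth projective curve in `ℙ(v)` of genus `g` with `deg O(1) = d` (`SmC`), `c > 0`, `a_j`, `b_j` forms of degrees `4 n_j`, `6 n_j` (`n_j > 0`, `j ≤ c`) such that `a_j^3` and `b_j^2` are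
linearly independent modulo `(I)` (the `j`-invariants are not constant), `X = W_1 ×_B ... ×_B W_c`, and `k ≥ (n_1 + .. + n_c) d + g`.  If `z_1, .., z_k` are zero-cycles on `X` such that positive multiples of their images under
the `c` maps `X → X` which replace the point of `W_j` by `o` are rationally equivalent to zero on `X`, then `∑_σ sgn(σ)^c z_σ(1) × .. × z_σ(k)` has a positive multiple which is rationally equivalent to zero on `X^k`.
(2) Let `B = ℙ¹`, and `c = 1`, or `c = 2` and `n_1 = n_2 = 1`.  Then for `k ≥ n_1 + .. + n_c` this holds for all zero-cycles `z_i` of degree zero on `X`. -/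
theorem result (K : Type) [Field K] [IsAlgClosed K] [CharZero K] :
    (∀ (s c d g k : ℕ) (X : XD K s c), X.Ok → 0 < c → SmC X.v X.I d g →
      (∀ j, ∀ e e' : K, MvPolynomial.C e * X.a j ^ 3 - MvPolynomial.C e' * X.b j ^ 2 ∈ Ideal.span X.I → e = 0 ∧ e' = 0) →
      (∑ j, X.n j) * d + g ≤ k →
      ∀ z : Fin k → (Row s c K →₀ ℤ), (∀ i, ∀ R ∈ (z i).support, OnX X R) →
        (∀ i j, ∃ N : ℕ, 0 < N ∧ N • boxX (fun _ : Fin 1 => (z i).mapDomain (rho j)) ∈ RatX 1 X) →
        ∃ N : ℕ, 0 < N ∧ N • altzX z ∈ RatX k X) ∧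
    (∀ (c k : ℕ) (n : Fin c → ℕ) (a b : Fin c → MvPolynomial (Fin 2) K), (c = 1 ∨ (c = 2 ∧ ∀ j, n j = 1)) → (∀ j, 0 < n j) →
      (∀ j, (a j).IsHomogeneous (4 * n j)) → (∀ j, (b j).IsHomogeneous (6 * n j)) →
      (∀ j, ∀ e e' : K, e • a j ^ 3 = e' • b j ^ 2 → e = 0 ∧ e' = 0) → ∑ j, n j ≤ k →
      ∀ z : Fin k → (Row 2 c K →₀ ℤ), (∀ i, ∀ R ∈ (z i).support, OnX (XP n a b) R) → (∀ i, ((z i).sum fun _ m => m) = 0) →
        ∃ N : ℕ, 0 < N ∧ N • altzX z ∈ RatX k (XP n a b)) :=
  ⟨fun _ _ _ _ _ _ hX hc h hab hk _ hz hr => all_z hX hc h hab hk hz hr,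
    fun _ _ _ _ _ hc hn ha hb hab hk _ hz h0 => all_P1 hc hn ha hb hab hk hz h0⟩

end Pool.Agent.Results.MP_537ea0_ag.FibreProducts
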